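import Pool.Agent.H560.E2.Stm

/-!
# E2 FIN (helper560): assembly of the core theorem
-/

set_option autoImplicit false
set_option linter.all false

namespace Pool.Agent.H721.E2Fin

open Polynomial
open scoped Classical
open Pool.Agent.H985.Chow (mob)
open Pool.Agent.H985.Chow.Asm
open Pool.Agent.H985.Par (GoodV Sft)
open Pool.Agent.H694.Typ (Mn Irn PU mem_Mn card_Mn mem_Irn irn_ge q_ge mem_PU)
open Pool.Agent.H560.E2

/-- growth -/
theorem pow_growth (C : ℝ) (l : ℕ) (η : ℝ) (hη : 0 < η) : ∃ n₀ : ℕ, ∀ d : ℕ, n₀ ≤ d →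
    C * (d : ℝ) ^ l ≤ (2 : ℝ) ^ (η * d) := by
  have hr : (1 : ℝ) < 2 ^ η := Real.one_lt_rpow (by norm_num) hη
  have h := isLittleO_pow_const_const_pow_of_one_lt (R := ℝ) l hr
  have h2 := h.def (c := 1 / (|C| + 1)) (by positivity)
  rw [Filter.eventually_atTop] at h2
  obtain ⟨n₀, hn⟩ := h2
  refine ⟨n₀, fun d hd => ?_⟩
  have h3 := hn d hd
  rw [Real.norm_of_nonneg (by positivity), Real.norm_of_nonneg (by positivity)] at h3
  have h4 : (2 : ℝ) ^ (η * d) = (2 ^ η) ^ d := by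
    rw [Real.rpow_mul_natCast (by norm_num)]
  rw [h4]
  have h5 : (0 : ℝ) ≤ (2 ^ η) ^ d := by positivity
  have h6 : C ≤ |C| + 1 := by linarith [le_abs_self C]
  calc C * (d : ℝ) ^ l ≤ (|C| + 1) * (d : ℝ) ^ l := by gcongr
    _ ≤ (|C| + 1) * (1 / (|C| + 1) * (2 ^ η) ^ d) := by gcongr
    _ = (2 ^ η) ^ d := by
      have : |C| + 1 ≠ 0 := by positivity
      field_simp

section
variable {K : Type} [Field K] [Fintype K]

/-- the number of the primes of degree `j` dividing a polynomial -/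
theorem card_irn_dvd {a : K[X]} (h0 : a ≠ 0) (j : ℕ) :
    j * ((Irn K j).filter (fun p => p ∣ a)).card ≤ a.natDegree := by
  have h1 : ∏ P ∈ (Irn K j).filter (fun p => p ∣ a), P ∣ a := by
    apply Finset.prod_dvd_of_coprime
    · intro P hP P' hP' hne
      rw [Finset.mem_coe, Finset.mem_filter, mem_Irn] at hP hP'
      exact coprime_of_ne ⟨hP.1.1, hP.1.2.2⟩ ⟨hP'.1.1, hP'.1.2.2⟩ hne
    · intro P hP
      exact (Finset.mem_filter.1 hP).2
  have h2 := natDegree_le_of_dvd h1 h0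
  rw [natDegree_prod_of_monic _ _ (fun P hP => (mem_Irn.1 (Finset.mem_filter.1 hP).1).1),
    Finset.sum_congr rfl (fun P hP => (mem_Irn.1 (Finset.mem_filter.1 hP).1).2.1),
    Finset.sum_const, smul_eq_mul, mul_comm] at h2
  exact h2

/-- the number of the primes of degree `j` dividing none of the `α i` -/
theorem pj_ge {k : ℕ} (α : Fin k → K[X]) (hα : ∀ i, α i ≠ 0) {n j : ℕ} (hj : 0 < j)
    (hn : ∀ i, (α i).natDegree < n) :
    (Fintype.card K : ℝ) ^ j ≤ j * ((Irn K j).filter (fun p => ∀ i, ¬ p ∣ α i)).card + k * n +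
      2 * (Fintype.card K : ℝ) ^ (j / 2) := by
  have h1 : Irn K j ⊆ (Irn K j).filter (fun p => ∀ i, ¬ p ∣ α i) ∪
      Finset.univ.biUnion (fun i => (Irn K j).filter (fun p => p ∣ α i)) := by
    intro p hp
    rw [Finset.mem_union]
    by_cases h : ∀ i, ¬ p ∣ α i
    · left
      exact Finset.mem_filter.2 ⟨hp, h⟩
    · right
      rw [not_forall] at h
      obtain ⟨i, hi⟩ := h
      rw [not_not] at hi
      exact Finset.mem_biUnion.2 ⟨i, Finset.mem_univ _, Finset.mem_filter.2 ⟨hp, hi⟩⟩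
  have h2 : (Irn K j).card ≤ ((Irn K j).filter (fun p => ∀ i, ¬ p ∣ α i)).card +
      ∑ i, ((Irn K j).filter (fun p => p ∣ α i)).card :=
    (Finset.card_le_card h1).trans ((Finset.card_union_le _ _).trans
      (Nat.add_le_add_left Finset.card_biUnion_le _))
  have h3 : j * ∑ i, ((Irn K j).filter (fun p => p ∣ α i)).card ≤ k * n := by
    rw [Finset.mul_sum]
    refine (Finset.sum_le_sum (g := fun _ => n) fun i _ =>
      (card_irn_dvd (hα i) j).trans (hn i).le).trans ?_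
    rw [Finset.sum_const, Finset.card_univ, Fintype.card_fin, smul_eq_mul]
  have h4 := irn_ge (k := K) hj
  have h5 : j * (Irn K j).card ≤ j * ((Irn K j).filter (fun p => ∀ i, ¬ p ∣ α i)).card + k * n := by
    refine (Nat.mul_le_mul_left j h2).trans ?_
    rw [mul_add]
    exact Nat.add_le_add_left h3 _
  have h6 : Fintype.card K ^ j ≤ j * ((Irn K j).filter (fun p => ∀ i, ¬ p ∣ α i)).card + k * n +
      2 * Fintype.card K ^ (j / 2) := h4.trans (Nat.add_le_add_right h5 _)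
  exact_mod_cast h6

variable [CharP K 2]

/-- the decomposition of a monic polynomial of odd degree -/
theorem dec {d : ℕ} {g : K[X]} (hg : g ∈ Mn K (2 * d + 1)) :
    ∃ A ∈ degreeLT K (d + 1), ∃ B ∈ Mn K d, A ^ 2 + X * B ^ 2 = g := by
  rw [mem_Mn] at hg
  obtain ⟨v, hv, v', hv', h⟩ := mem_G (2 * d + 1) g hg
  have e1 : (2 * d + 1 + 1) / 2 = d + 1 := by omega
  have e2 : (2 * d + 1) / 2 = d := by omega
  have e3 : ta K (2 * d + 1) = 0 := by
    unfold ta
    rw [if_neg (by omega)]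
  have e4 : tb K (2 * d + 1) = X ^ d := by
    unfold tb
    rw [if_neg (by omega), e2]
  rw [e1] at hv
  rw [e2] at hv'
  rw [e3, e4, zero_add] at h
  have hd : v'.degree < (d : WithBot ℕ) := mem_degreeLT.1 hv'
  refine ⟨v, hv, X ^ d + v', ?_, h⟩
  rw [mem_Mn]
  refine ⟨monic_X_pow_add hd, ?_⟩
  have h2 := degree_add_eq_left_of_degree_lt (p := (X ^ d : K[X])) (q := v')
    (by rw [degree_X_pow]; exact hd)
  rw [natDegree_eq_of_degree_eq h2, natDegree_X_pow]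

/-- the degree of the second coordinate -/
theorem deg_t {s t a : K[X]} (h : a = s ^ 2 + X * t ^ 2) {e : ℕ} (ha : a.natDegree < 2 * e + 1) :
    t = 0 ∨ t.natDegree < e := by
  by_cases h0 : t = 0
  · exact Or.inl h0
  · right
    by_contra hc
    rw [not_lt] at hc
    have h1 := coeff_G_odd s t t.natDegree
    unfold G at h1
    rw [← h, coeff_eq_zero_of_natDegree_lt (by omega)] at h1
    have h2 := pow_eq_zero_iff (two_ne_zero) |>.1 h1.symm
    exact h0 (leadingCoeff_eq_zero.1 h2)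

/-- the prime does not divide the second coordinate -/
theorem not_dvd_t {p a s t : K[X]} (hp : Irreducible p) (ha : ¬ p ∣ a)
    (h : p * a = s ^ 2 + X * t ^ 2) : ¬ p ∣ t := by
  intro ht
  have h1 : p ∣ s ^ 2 := by
    have h2 : s ^ 2 = p * a - X * t ^ 2 := by
      rw [h]
      ring
    rw [h2]
    exact dvd_sub (dvd_mul_right _ _) (dvd_mul_of_dvd_right (dvd_pow ht two_ne_zero) _)
  have hs : p ∣ s := hp.prime.dvd_of_dvd_pow h1
  obtain ⟨s', hs'⟩ := hs
  obtain ⟨t', ht'⟩ := ht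
  refine ha ⟨s' ^ 2 + X * t' ^ 2, ?_⟩
  have h3 : p * a = p * (p * (s' ^ 2 + X * t' ^ 2)) := by
    rw [h, hs', ht']
    ring
  exact mul_left_cancel₀ hp.ne_zero h3

/-- the number of the bad second coordinates -/
theorem bad_count {p a s t : K[X]} {d j : ℕ} (hp : p ∈ Irn K j) (hdeg : a.natDegree < 2 * d + 1 + j)
    (hst : p * a = s ^ 2 + X * t ^ 2) (R : Set K[X]) (δ κ : ℝ) :
    ((Mn K d).filter (fun B => ¬ GoodV R δ κ (d + j) (p * B + t))).card ≤
      ((Mn K (d + j)).filter (fun b => p ∣ b - t ∧ ¬ GoodV R δ κ (d + j) b)).card := by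
  rw [mem_Irn] at hp
  obtain ⟨hpm, hpj, hpi⟩ := hp
  have hd : (p * a).natDegree < 2 * (d + j) + 1 := by
    have := natDegree_mul_le (p := p) (q := a)
    omega
  have ht := deg_t hst hd
  refine Finset.card_le_card_of_injOn (fun B => p * B + t) ?_ ?_
  · intro B hB
    rw [Finset.mem_coe, Finset.mem_filter, mem_Mn] at hB
    obtain ⟨⟨hB1, hB2⟩, hB3⟩ := hB
    rw [Finset.mem_coe, Finset.mem_filter, mem_Mn]
    have h1 : (p * B).Monic := hpm.mul hB1
    have h2 : (p * B).natDegree = d + j := by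
      rw [hpm.natDegree_mul hB1, hpj, hB2, add_comm]
    have h3 : t.degree < (p * B).degree := by
      rw [degree_eq_natDegree h1.ne_zero, h2]
      rcases ht with ht | ht
      · rw [ht, degree_zero]
        exact WithBot.bot_lt_coe _
      · exact lt_of_le_of_lt degree_le_natDegree (by exact_mod_cast ht)
    refine ⟨⟨h1.add_of_left h3, ?_⟩, ?_, hB3⟩
    · rw [natDegree_add_eq_left_of_degree_lt h3, h2]
    · rw [add_sub_cancel_right]
      exact dvd_mul_right _ _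
  · intro B _ B' _ h
    have h1 : p * B + t = p * B' + t := h
    exact mul_left_cancel₀ hpi.ne_zero (add_right_cancel h1)

/-- the sifted values with a bad second coordinate for a given prime `p` -/
theorem fibre {k d j m y : ℕ} {δ κ εt ub : ℝ} (α : Fin k → K[X]) (p : K[X])
    (hp : p ∈ Irn K j) (hpα : ∀ i, ¬ p ∣ α i) (hdeg : ∀ i, (α i).natDegree < 2 * d + 1 + j)
    (htyp : ∀ c : K[X], ¬ p ∣ c → (((Mn K (d + j)).filter (fun b => p ∣ b - c ∧
      ¬ GoodV {P : K[X] | P.natDegree ≤ y} δ κ (d + j) b)).card : ℝ) ≤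
        εt * (Fintype.card K : ℝ) ^ d) (hub0 : 0 ≤ ub) (hεt : 0 ≤ εt)
    (hub : ∀ B : K[X], B.Monic → B.natDegree = d →
      (((Finset.univ : Finset (degreeLT K (d + 1))).filter (fun A : degreeLT K (d + 1) =>
          Irreducible ((A : K[X]) ^ 2 + X * B ^ 2) ∧
          ∀ i, Sft m (p * ((A : K[X]) ^ 2 + X * B ^ 2) + α i))).card : ℝ) ≤ ub)
    (S : Finset (Fin k)) :
    (((Irn K (2 * d + 1)).filter (fun g => (∀ i, Sft m (p * g + α i)) ∧
      ¬ ∀ i ∈ S, GdF y δ κ (d + j) (p * (p * g + α i)))).card : ℝ) ≤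
        k * (εt * (Fintype.card K : ℝ) ^ d * ub) := by
  have hst : ∀ i, ∃ s t : K[X], p * α i = s ^ 2 + X * t ^ 2 := by
    intro i
    obtain ⟨s, t, h⟩ := G_surj (p * α i)
    exact ⟨s, t, h.symm⟩
  choose s t hst using hst
  have h1 : (Irn K (2 * d + 1)).filter (fun g => (∀ i, Sft m (p * g + α i)) ∧
      ¬ ∀ i ∈ S, GdF y δ κ (d + j) (p * (p * g + α i))) ⊆
      S.biUnion (fun i => ((Mn K d).filter (fun B => ¬ GoodV {P : K[X] | P.natDegree ≤ y} δ κ
        (d + j) (p * B + t i))).biUnion (fun B =>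
        ((Finset.univ : Finset (degreeLT K (d + 1))).filter (fun A : degreeLT K (d + 1) =>
          Irreducible ((A : K[X]) ^ 2 + X * B ^ 2) ∧
          ∀ i, Sft m (p * ((A : K[X]) ^ 2 + X * B ^ 2) + α i))).image
            (fun A : degreeLT K (d + 1) => (A : K[X]) ^ 2 + X * B ^ 2))) := by
    intro g hg
    rw [Finset.mem_filter, mem_Irn] at hg
    obtain ⟨⟨g1, g2, g3⟩, g4, g5⟩ := hg
    obtain ⟨A, hA, B, hB, hAB⟩ := dec (mem_Mn.2 ⟨g1, g2⟩)
    rw [not_forall] at g5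
    obtain ⟨i, hi⟩ := g5
    rw [Classical.not_imp] at hi
    rw [Finset.mem_biUnion]
    refine ⟨i, hi.1, ?_⟩
    rw [Finset.mem_biUnion]
    refine ⟨B, Finset.mem_filter.2 ⟨hB, fun hc => hi.2 ?_⟩, ?_⟩
    · refine ⟨p * A + s i, p * B + t i, ?_, hc⟩
      have e1 : (p * A + s i) ^ 2 = (p * A) ^ 2 + s i ^ 2 := CharTwo.add_sq _ _
      have e2 : (p * B + t i) ^ 2 = (p * B) ^ 2 + t i ^ 2 := CharTwo.add_sq _ _
      rw [e1, e2, ← hAB, mul_add, hst i]
      ring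
    · rw [Finset.mem_image]
      refine ⟨⟨A, hA⟩, Finset.mem_filter.2 ⟨Finset.mem_univ _, ?_, ?_⟩, hAB⟩
      · rw [hAB]
        exact g3
      · intro i'
        show Sft m (p * (A ^ 2 + X * B ^ 2) + α i')
        rw [hAB]
        exact g4 i'
  have h2 : ∀ i ∈ S, ((((Mn K d).filter (fun B => ¬ GoodV {P : K[X] | P.natDegree ≤ y} δ κ
        (d + j) (p * B + t i))).biUnion (fun B =>
        ((Finset.univ : Finset (degreeLT K (d + 1))).filter (fun A : degreeLT K (d + 1) =>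
          Irreducible ((A : K[X]) ^ 2 + X * B ^ 2) ∧
          ∀ i, Sft m (p * ((A : K[X]) ^ 2 + X * B ^ 2) + α i))).image
            (fun A : degreeLT K (d + 1) => (A : K[X]) ^ 2 + X * B ^ 2))).card : ℝ) ≤
      εt * (Fintype.card K : ℝ) ^ d * ub := by
    intro i _
    have h3 : ((((Mn K d).filter (fun B => ¬ GoodV {P : K[X] | P.natDegree ≤ y} δ κ
        (d + j) (p * B + t i))).biUnion (fun B =>
        ((Finset.univ : Finset (degreeLT K (d + 1))).filter (fun A : degreeLT K (d + 1) =>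
          Irreducible ((A : K[X]) ^ 2 + X * B ^ 2) ∧
          ∀ i, Sft m (p * ((A : K[X]) ^ 2 + X * B ^ 2) + α i))).image
            (fun A : degreeLT K (d + 1) => (A : K[X]) ^ 2 + X * B ^ 2))).card : ℝ) ≤
        ∑ B ∈ (Mn K d).filter (fun B => ¬ GoodV {P : K[X] | P.natDegree ≤ y} δ κ
        (d + j) (p * B + t i)), ub := by
      refine (Nat.cast_le.2 Finset.card_biUnion_le).trans ?_
      rw [Nat.cast_sum]
      refine Finset.sum_le_sum fun B hB => ?_
      have hB' := mem_Mn.1 (Finset.mem_filter.1 hB).1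
      exact (Nat.cast_le.2 Finset.card_image_le).trans (hub B hB'.1 hB'.2)
    refine h3.trans ?_
    rw [Finset.sum_const, nsmul_eq_mul]
    refine mul_le_mul_of_nonneg_right ?_ hub0
    have h4 := bad_count hp (hdeg i) (hst i) {P : K[X] | P.natDegree ≤ y} δ κ
    have h5 := htyp (t i) (not_dvd_t (mem_Irn.1 hp).2.2 (hpα i) (hst i))
    exact (Nat.cast_le.2 h4).trans h5
  refine (Nat.cast_le.2 ((Finset.card_le_card h1).trans Finset.card_biUnion_le)).trans ?_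
  rw [Nat.cast_sum]
  refine (Finset.sum_le_sum h2).trans ?_
  rw [Finset.sum_const, nsmul_eq_mul]
  refine mul_le_mul_of_nonneg_right ?_ (by positivity)
  have h6 := Finset.card_le_univ S
  rw [Fintype.card_fin] at h6
  exact_mod_cast h6

end


section
variable {K : Type} [Field K] [Fintype K]

theorem abs_pm {k : ℕ} (S : Finset (Fin k)) (F : Fin k → K[X]) : |∏ i ∈ S, (mob (F i) : ℝ)| ≤ 1 := by
  rw [Finset.abs_prod]
  exact Finset.prod_le_one (fun i _ => abs_nonneg _) fun i _ => abs_mob _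

/-- the sums over the pairs -/
theorem sum_Zs {k : ℕ} (α : Fin k → K[X]) (d j m : ℕ) (f : K[X] → K[X] → ℝ) :
    ∑ x ∈ Zs K α d j m, f x.1 x.2 =
      ∑ p ∈ (Irn K j).filter (fun p => ∀ i, ¬ p ∣ α i), ∑ g ∈ Irn K (2 * d + 1),
        if ∀ i, Sft m (p * g + α i) then f p g else 0 := by
  unfold Zs
  rw [Finset.sum_filter, Finset.sum_product]

theorem card_Zs {k : ℕ} (α : Fin k → K[X]) (d j m : ℕ) :
    ((Zs K α d j m).card : ℝ) =
      ∑ p ∈ (Irn K j).filter (fun p => ∀ i, ¬ p ∣ α i), ∑ g ∈ Irn K (2 * d + 1),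
        if ∀ i, Sft m (p * g + α i) then (1 : ℝ) else 0 := by
  rw [← sum_Zs α d j m fun _ _ => 1, Finset.sum_const, nsmul_eq_mul, mul_one]

/-- the main estimate -/
theorem est {k d j m y : ℕ} {δ κb ε M T1 T3 : ℝ} (α : Fin k → K[X]) (U V : Finset K[X] → ℝ)
    (hU : ∀ f, (if ∀ i, Sft m (f + α i) then (1 : ℝ) else 0) ≤ th m U α f)
    (hV : ∀ f, th m V α f ≤ if ∀ i, Sft m (f + α i) then (1 : ℝ) else 0)
    (hε0 : 0 < ε) (hε1 : ε ≤ 1) (hM : 0 ≤ M)
    (hU2 : ∀ p ∈ Irn K j, ∑ g ∈ Irn K (2 * d + 1), th m U α (p * g) ≤ (1 + ε / 16) * M)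
    (hV2 : ∀ p ∈ Irn K j, (1 - ε / 16) * M ≤ ∑ g ∈ Irn K (2 * d + 1), th m V α (p * g))
    (S : Finset (Fin k))
    (hbil : |∑ p ∈ (Irn K j).filter (fun p => ∀ i, ¬ p ∣ α i), ∑ g ∈ Irn K (2 * d + 1),
            (if ∀ i ∈ S, GdF y δ κb (d + j) (p * (p * g + α i)) then
              th m U α (p * g) * ∏ i ∈ S, (mob (p * g + α i) : ℝ) else 0)| ≤ T1)
    (hfib : ∀ p ∈ (Irn K j).filter (fun p => ∀ i, ¬ p ∣ α i),
      (((Irn K (2 * d + 1)).filter (fun g => (∀ i, Sft m (p * g + α i)) ∧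
      ¬ ∀ i ∈ S, GdF y δ κb (d + j) (p * (p * g + α i)))).card : ℝ) ≤ T3) :
    (((Irn K j).filter (fun p => ∀ i, ¬ p ∣ α i)).card : ℝ) * (M / 2) ≤ (Zs K α d j m).card ∧
    |∑ x ∈ Zs K α d j m, ∏ i ∈ S, (mob (x.1 * x.2 + α i) : ℝ)| ≤
      T1 + ε / 4 * (Zs K α d j m).card +
        ((Irn K j).filter (fun p => ∀ i, ¬ p ∣ α i)).card * T3 := by
  set PJ := (Irn K j).filter (fun p => ∀ i, ¬ p ∣ α i) with hPJ
  set Q := Irn K (2 * d + 1) with hQ
  have hPsub : ∀ p ∈ PJ, p ∈ Irn K j := fun p hp => (Finset.mem_filter.1 hp).1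
  -- the number of the pairs
  have hz : ∀ p ∈ PJ, (1 - ε / 16) * M ≤
      ∑ g ∈ Q, if ∀ i, Sft m (p * g + α i) then (1 : ℝ) else 0 := by
    intro p hp
    exact (hV2 p (hPsub p hp)).trans (Finset.sum_le_sum fun g _ => hV (p * g))
  have hcard : (PJ.card : ℝ) * ((1 - ε / 16) * M) ≤ (Zs K α d j m).card := by
    rw [card_Zs, ← nsmul_eq_mul, ← Finset.sum_const]
    exact Finset.sum_le_sum hz
  have hcard2 : (PJ.card : ℝ) * (M / 2) ≤ (Zs K α d j m).card := by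
    refine le_trans ?_ hcard
    refine mul_le_mul_of_nonneg_left ?_ (Nat.cast_nonneg _)
    nlinarith
  refine ⟨hcard2, ?_⟩
  -- the error of the sieve weights
  have herr : ∑ p ∈ PJ, ∑ g ∈ Q, (th m U α (p * g) -
      if ∀ i, Sft m (p * g + α i) then (1 : ℝ) else 0) ≤ ε / 4 * (Zs K α d j m).card := by
    have h1 : ∑ p ∈ PJ, ∑ g ∈ Q, (th m U α (p * g) -
        if ∀ i, Sft m (p * g + α i) then (1 : ℝ) else 0) ≤ ∑ p ∈ PJ, (ε / 8 * M) := by
      refine Finset.sum_le_sum fun p hp => ?_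
      rw [Finset.sum_sub_distrib]
      have h2 := hz p hp
      have h3 := hU2 p (hPsub p hp)
      nlinarith
    rw [Finset.sum_const, nsmul_eq_mul] at h1
    nlinarith
  -- the decomposition
  have hdec : ∑ x ∈ Zs K α d j m, ∏ i ∈ S, (mob (x.1 * x.2 + α i) : ℝ) =
      ∑ p ∈ PJ, ∑ g ∈ Q, (if ∀ i ∈ S, GdF y δ κb (d + j) (p * (p * g + α i)) then
              th m U α (p * g) * ∏ i ∈ S, (mob (p * g + α i) : ℝ) else 0) +
      ∑ p ∈ PJ, ∑ g ∈ Q,
        ((if ∀ i, Sft m (p * g + α i) then ∏ i ∈ S, (mob (p * g + α i) : ℝ) else 0) -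
        (if ∀ i ∈ S, GdF y δ κb (d + j) (p * (p * g + α i)) then
              th m U α (p * g) * ∏ i ∈ S, (mob (p * g + α i) : ℝ) else 0)) := by
    rw [sum_Zs α d j m fun p g => ∏ i ∈ S, (mob (p * g + α i) : ℝ), ← Finset.sum_add_distrib]
    refine Finset.sum_congr rfl fun p _ => ?_
    rw [← Finset.sum_add_distrib]
    refine Finset.sum_congr rfl fun g _ => ?_
    rw [add_sub_cancel]
  rw [hdec]
  refine (abs_add_le _ _).trans ?_
  rw [add_assoc]
  refine add_le_add hbil ?_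
  refine (Finset.abs_sum_le_sum_abs _ _).trans ?_
  have hpt : ∀ p ∈ PJ, |∑ g ∈ Q,
        ((if ∀ i, Sft m (p * g + α i) then ∏ i ∈ S, (mob (p * g + α i) : ℝ) else 0) -
        (if ∀ i ∈ S, GdF y δ κb (d + j) (p * (p * g + α i)) then
              th m U α (p * g) * ∏ i ∈ S, (mob (p * g + α i) : ℝ) else 0))| ≤
      ∑ g ∈ Q, (th m U α (p * g) - if ∀ i, Sft m (p * g + α i) then (1 : ℝ) else 0) + T3 := by
    intro p hp
    refine (Finset.abs_sum_le_sum_abs _ _).trans ?_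
    refine le_trans (Finset.sum_le_sum (g := fun g => (th m U α (p * g) -
      if ∀ i, Sft m (p * g + α i) then (1 : ℝ) else 0) +
      if (∀ i, Sft m (p * g + α i)) ∧ ¬ ∀ i ∈ S, GdF y δ κb (d + j) (p * (p * g + α i))
        then (1 : ℝ) else 0) fun g _ => ?_) ?_
    · have hW := abs_pm S fun i => p * g + α i
      have hW' : |∏ i ∈ S, (mob (p * g + α i) : ℝ)| ≤ 1 := hW
      have h0 := hU (p * g)
      by_cases h1 : ∀ i, Sft m (p * g + α i)
      · by_cases h2 : ∀ i ∈ S, GdF y δ κb (d + j) (p * (p * g + α i))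
        · rw [if_pos h1] at h0
          rw [if_pos h1, if_pos h2, if_pos h1, if_neg (fun h => h.2 h2), add_zero]
          have e : ∏ i ∈ S, (mob (p * g + α i) : ℝ) -
              th m U α (p * g) * ∏ i ∈ S, (mob (p * g + α i) : ℝ) =
              (1 - th m U α (p * g)) * ∏ i ∈ S, (mob (p * g + α i) : ℝ) := by ring
          rw [e, abs_mul, abs_of_nonpos (by linarith), neg_sub]
          exact mul_le_of_le_one_right (by linarith) hW'
        · rw [if_pos h1] at h0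
          rw [if_pos h1, if_neg h2, if_pos h1, if_pos ⟨h1, h2⟩, sub_zero]
          linarith
      · rw [if_neg h1] at h0
        have h3 : ¬ ((∀ i, Sft m (p * g + α i)) ∧
            ¬ ∀ i ∈ S, GdF y δ κb (d + j) (p * (p * g + α i))) := fun h => h1 h.1
        rw [if_neg h1, if_neg h1, if_neg h3, add_zero, zero_sub, sub_zero, abs_neg]
        split_ifs with h2
        · rw [abs_mul, abs_of_nonneg h0]
          exact mul_le_of_le_one_right h0 hW'
        · rw [abs_zero]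
          exact h0
    · rw [Finset.sum_add_distrib]
      refine add_le_add le_rfl ?_
      refine le_trans (le_of_eq ?_) (hfib p hp)
      rw [Finset.sum_ite, Finset.sum_const_zero, add_zero, Finset.sum_const, nsmul_eq_mul, mul_one]
  refine (Finset.sum_le_sum hpt).trans ?_
  rw [Finset.sum_add_distrib, Finset.sum_const, nsmul_eq_mul]
  exact add_le_add herr le_rfl

end


/-- the number of the primes, numerically -/
theorem pj_num {q η : ℝ} {k d j P : ℕ} (hq : 2 ≤ q) (hη : 0 < η) (hd : 1 ≤ d) (hj6 : 6 ≤ j)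
    (hj1 : η * d ≤ (j : ℝ)) (hjd : (j : ℝ) ≤ d / 8)
    (hg : 16 * k * (d : ℝ) ^ 1 ≤ (2 : ℝ) ^ (η * d))
    (h : q ^ j ≤ j * P + k * ((2 * d + 1 + j : ℕ) : ℝ) + 2 * q ^ (j / 2)) :
    q ^ j / (2 * j) ≤ P := by
  have hd1 : (1 : ℝ) ≤ d := by exact_mod_cast hd
  have h1 : (2 : ℝ) ^ (η * d) ≤ q ^ j := by
    calc (2 : ℝ) ^ (η * d) ≤ (2 : ℝ) ^ (j : ℝ) :=
          Real.rpow_le_rpow_of_exponent_le (by norm_num) hj1
      _ = (2 : ℝ) ^ j := Real.rpow_natCast _ _
      _ ≤ q ^ j := pow_le_pow_left₀ (by norm_num) hq j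
  have h2 : 8 * q ^ (j / 2) ≤ q ^ j := by
    have h3 : q ^ (j / 2 + 3) ≤ q ^ j := pow_le_pow_right₀ (by linarith) (by omega)
    have h4 : (8 : ℝ) ≤ q ^ 3 := by
      calc (8 : ℝ) = 2 ^ 3 := by norm_num
        _ ≤ q ^ 3 := pow_le_pow_left₀ (by norm_num) hq 3
    have h5 : 0 ≤ q ^ (j / 2) := by positivity
    calc 8 * q ^ (j / 2) ≤ q ^ 3 * q ^ (j / 2) := mul_le_mul_of_nonneg_right h4 h5
      _ = q ^ (j / 2 + 3) := by rw [pow_add]; ring
      _ ≤ q ^ j := h3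
  have h6 : (k : ℝ) * ((2 * d + 1 + j : ℕ) : ℝ) ≤ k * (4 * d) := by
    refine mul_le_mul_of_nonneg_left ?_ (Nat.cast_nonneg _)
    push_cast
    linarith
  have hj0 : (0 : ℝ) < j := by exact_mod_cast (by omega : 0 < j)
  rw [div_le_iff₀ (by positivity)]
  rw [pow_one] at hg
  linarith

theorem ml {a b c : ℝ} (hc : 0 ≤ c) (h : a ≤ b) : a * c ≤ b * c :=
  mul_le_mul_of_nonneg_right h hc

theorem core (ht : S_typP) (hb : S_bilP) (hu : S_upP) (hm : S_mainP) (hv : S_svP) (hl : S_v1P) :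
    S_core := by
  intro K _ _ _ k ε hk hε
  have hq2 : (2 : ℝ) ≤ Fintype.card K := q_ge
  have hk0 : (1 : ℝ) ≤ k := by exact_mod_cast hk
  obtain ⟨ε', hε'0, hε'1, hε'ε⟩ : ∃ ε' : ℝ, 0 < ε' ∧ ε' ≤ 1 ∧ ε' ≤ ε :=
    ⟨min ε 1, lt_min hε one_pos, min_le_right _ _, min_le_left _ _⟩
  obtain ⟨A, hA⟩ := hv K k (ε' / 32) (by positivity)
  obtain ⟨a, ha, nu, hup⟩ := hu K k
  obtain ⟨δ, hδ, hδ8, htyp⟩ := ht K (ε' * a / (200 * k)) (by positivity)
  obtain ⟨κb, hκb, hκb8, hbil⟩ := hb K k A δ hδ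
  obtain ⟨θ, hθ, y₀, d₁, htyp⟩ := htyp κb hκb
  obtain ⟨μ, hμ, hμθ, hμκ⟩ : ∃ μ : ℝ, 0 < μ ∧ μ ≤ θ ∧ μ ≤ κb :=
    ⟨min θ κb, lt_min hθ hκb, min_le_left _ _, min_le_right _ _⟩
  obtain ⟨η, hη, hηκ, hηδ, hη8⟩ : ∃ η : ℝ, 0 < η ∧ 2 * η ≤ κb ∧ 2 * η ≤ δ ∧ 2 * η ≤ 1 / 8 := by
    refine ⟨min (min κb δ) (1 / 8) / 2, by positivity, ?_, ?_, ?_⟩
    · have := (min_le_left (min κb δ) (1 / 8)).trans (min_le_left κb δ)
      linarith
    · have := (min_le_left (min κb δ) (1 / 8)).trans (min_le_right κb δ)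
      linarith
    · have := min_le_right (min κb δ) (1 / 8)
      linarith
  obtain ⟨η', hη', hηη, hημ⟩ : ∃ η' : ℝ, 0 < η' ∧ η' ≤ η ∧ η' ≤ μ / 2 :=
    ⟨min η (μ / 2), by positivity, min_le_left _ _, min_le_right _ _⟩
  obtain ⟨κ', c', hκ', hc', nb, hbil⟩ := hbil η' hη'
  obtain ⟨κm, hκm, nm, hmain⟩ := hm K k A
  obtain ⟨cv, hcv, hvl⟩ := hl K k
  obtain ⟨n1, hg1⟩ := pow_growth (16 * k) 1 η hη
  obtain ⟨n2, hg2⟩ := pow_growth (96 / (ε' * cv)) (k + 1) (1 / 2) (by norm_num)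
  obtain ⟨n3, hg3⟩ := pow_growth (16 / (ε' * cv)) (k + 2) c' hc'
  obtain ⟨κ, hκ, hκκ', hκa, hκκm, hκη, hκ16⟩ : ∃ κ : ℝ, 0 < κ ∧ κ ≤ κ' ∧ κ ≤ a ∧ κ ≤ κm ∧
      κ ≤ η / 2 ∧ κ ≤ 1 / 16 := by
    refine ⟨min (min (min κ' a) κm) (min (η / 2) (1 / 16)), by positivity, ?_, ?_, ?_, ?_, ?_⟩
    · exact (min_le_left _ _).trans ((min_le_left _ _).trans (min_le_left _ _))
    · exact (min_le_left _ _).trans ((min_le_left _ _).trans (min_le_right _ _))
    · exact (min_le_left _ _).trans (min_le_right _ _)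
    · exact (min_le_right _ _).trans (min_le_left _ _)
    · exact (min_le_right _ _).trans (min_le_right _ _)
  refine ⟨η, κ, cv / 2, hη, by linarith, hκ, hκ16, by positivity, 1,
    nu + nb + d₁ + nm + n1 + n2 + n3 + 1 + ⌈6 / η⌉₊ + ⌈((y₀ : ℝ) + 2) / μ⌉₊, ?_⟩
  intro d j m hd hj1 hj2 hm1 hmκ
  obtain ⟨e1, hde1⟩ : ∃ e1 : ℕ, e1 = ⌈6 / η⌉₊ := ⟨_, rfl⟩
  obtain ⟨e2, hde2⟩ : ∃ e2 : ℕ, e2 = ⌈((y₀ : ℝ) + 2) / μ⌉₊ := ⟨_, rfl⟩
  rw [← hde1, ← hde2] at hd
  have hd0 : 1 ≤ d := by omega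
  have hd1 : (1 : ℝ) ≤ d := by exact_mod_cast hd0
  have hdη : 6 ≤ η * d := by
    have h1 : 6 / η ≤ d := by
      refine (Nat.le_ceil _).trans ?_
      rw [← hde1]
      exact_mod_cast (by omega : e1 ≤ d)
    rw [div_le_iff₀ hη] at h1
    linarith
  have hdμ : (y₀ : ℝ) + 2 ≤ μ * d := by
    have h1 : ((y₀ : ℝ) + 2) / μ ≤ d := by
      refine (Nat.le_ceil _).trans ?_
      rw [← hde2]
      exact_mod_cast (by omega : e2 ≤ d)
    rw [div_le_iff₀ hμ] at h1
    linarith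
  have hj6 : 6 ≤ j := by
    have : (6 : ℝ) ≤ j := hdη.trans hj1
    exact_mod_cast this
  have hd00 : (0 : ℝ) ≤ d := by linarith
  have hjd : (j : ℝ) ≤ d / 8 := by
    have := ml hd00 hη8
    linarith
  have hmj : m < j := by
    have : (m : ℝ) < j := by
      have := ml hd00 hκη
      linarith
    exact_mod_cast this
  refine ⟨hmj, ?_⟩
  intro α hinj hα0 hdeg hadm
  -- the parameter y
  obtain ⟨y, hy0, hyμ, hyη⟩ : ∃ y : ℕ, y₀ ≤ y ∧ (y : ℝ) ≤ μ * d ∧ η' * d ≤ y := by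
    have h0 : (0 : ℝ) ≤ y₀ := Nat.cast_nonneg _
    refine ⟨⌊μ * d⌋₊, ?_, Nat.floor_le (by positivity), ?_⟩
    · refine Nat.le_floor ?_
      linarith
    · have h1 := Nat.lt_floor_add_one (μ * d)
      have := ml hd00 hημ
      linarith
  obtain ⟨U, V, hUV1, hUV2, hU, hV, hsU, hsV⟩ := hA m α hadm
  obtain ⟨q, hq⟩ : ∃ q : ℝ, q = Fintype.card K := ⟨_, rfl⟩
  obtain ⟨Nr, hNr⟩ : ∃ Nr : ℝ, Nr = ((2 * d + 1 : ℕ) : ℝ) := ⟨_, rfl⟩
  have hNr' : Nr = 2 * d + 1 := by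
    rw [hNr]
    push_cast
    ring
  have hN3 : Nr ≤ 3 * d := by
    rw [hNr']
    linarith
  have hN0 : 0 < Nr := by
    rw [hNr']
    linarith
  rw [← hq] at hq2
  have hq0 : 0 < q := by linarith
  have hm0 : (1 : ℝ) ≤ m := by exact_mod_cast hm1
  have hmd : (m : ℝ) ≤ d := by
    have := ml hd00 hκ16
    linarith
  have hV1 := hvl m α hm1 hadm
  obtain ⟨v, hvdef⟩ : ∃ v : ℝ, v = V1 α m := ⟨_, rfl⟩
  rw [← hvdef] at hV1 hsU hsV
  have hmk : (0 : ℝ) < (m : ℝ) ^ k := by positivity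
  have hv0 : 0 < v := lt_of_lt_of_le (by positivity) hV1
  obtain ⟨M, hM⟩ : ∃ M : ℝ, M = q ^ (2 * d + 1) / Nr * v := ⟨_, rfl⟩
  have hM0 : 0 < M := by
    rw [hM]
    positivity
  -- the lower bound for the main term
  have hdk : (m : ℝ) ^ k ≤ (d : ℝ) ^ k := pow_le_pow_left₀ (by linarith) hmd k
  -- the error term
  have hE : q ^ (3 / 4 * Nr) ≤ ε' / 32 * M := by
    have h1 := hg2 d (by omega)
    have h2 : (2 : ℝ) ^ (1 / 2 * (d : ℝ)) ≤ q ^ (Nr / 4) := by
      calc (2 : ℝ) ^ (1 / 2 * (d : ℝ)) ≤ q ^ (1 / 2 * (d : ℝ)) :=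
            Real.rpow_le_rpow (by norm_num) hq2 (by positivity)
        _ ≤ q ^ (Nr / 4) := Real.rpow_le_rpow_of_exponent_le (by linarith) (by
            rw [hNr']
            linarith)
    have h3 : q ^ (2 * d + 1) = q ^ (3 / 4 * Nr) * q ^ (Nr / 4) := by
      rw [← Real.rpow_add hq0, ← Real.rpow_natCast, ← hNr]
      congr 1
      ring
    have h4 := h1.trans h2
    have h5 : cv / (d : ℝ) ^ k ≤ v := by
      refine le_trans ?_ hV1
      exact div_le_div_of_nonneg_left hcv.le hmk hdk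
    have h6 : 0 < q ^ (3 / 4 * Nr) := Real.rpow_pos_of_pos hq0 _
    rw [hM, h3]
    have h7 : ε' / 32 * (q ^ (3 / 4 * Nr) * (96 / (ε' * cv) * (d : ℝ) ^ (k + 1)) / (3 * d) *
        (cv / (d : ℝ) ^ k)) = q ^ (3 / 4 * Nr) := by
      rw [pow_succ]
      field_simp
      ring
    calc q ^ (3 / 4 * Nr) = _ := h7.symm
      _ ≤ ε' / 32 * (q ^ (3 / 4 * Nr) * q ^ (Nr / 4) / Nr * v) := by
        gcongr
  -- the sums of the weights
  have hU2 : ∀ p ∈ Irn K j, ∑ g ∈ Irn K (2 * d + 1), th m U α (p * g) ≤ (1 + ε' / 16) * M := by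
    intro p hp
    have h1 := hmain (2 * d + 1) j m (by omega) (by
      rw [← hNr, hNr']
      have := ml hd00 hκκm
      have : 0 ≤ κm * (d : ℝ) := by positivity
      linarith) hmj α p U hp (fun T => (hUV1 T).1) (fun T hT => hUV2 T (Or.inl hT))
    rw [← hNr, ← hq] at h1
    have h2 := (abs_le.1 h1).2
    have h3 : q ^ (2 * d + 1) / Nr * ∑ T ∈ (PU K m).powerset, U T * ∏ P ∈ T, wd α P ≤
        q ^ (2 * d + 1) / Nr * ((1 + ε' / 32) * v) :=
      mul_le_mul_of_nonneg_left hsU (by positivity)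
    have h4 : q ^ (2 * d + 1) / Nr * ((1 + ε' / 32) * v) = (1 + ε' / 32) * M := by
      rw [hM]
      ring
    rw [h4] at h3
    linarith
  have hV2 : ∀ p ∈ Irn K j, (1 - ε' / 16) * M ≤ ∑ g ∈ Irn K (2 * d + 1), th m V α (p * g) := by
    intro p hp
    have h1 := hmain (2 * d + 1) j m (by omega) (by
      rw [← hNr, hNr']
      have := ml hd00 hκκm
      have : 0 ≤ κm * (d : ℝ) := by positivity
      linarith) hmj α p V hp (fun T => (hUV1 T).2) (fun T hT => hUV2 T (Or.inr hT))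
    rw [← hNr, ← hq] at h1
    have h2 := (abs_le.1 h1).1
    have h3 : q ^ (2 * d + 1) / Nr * ((1 - ε' / 32) * v) ≤
        q ^ (2 * d + 1) / Nr * ∑ T ∈ (PU K m).powerset, V T * ∏ P ∈ T, wd α P :=
      mul_le_mul_of_nonneg_left hsV (by positivity)
    have h4 : q ^ (2 * d + 1) / Nr * ((1 - ε' / 32) * v) = (1 - ε' / 32) * M := by
      rw [hM]
      ring
    rw [h4] at h3
    linarith
  -- the fibres
  have hfib : ∀ S : Finset (Fin k), ∀ p ∈ (Irn K j).filter (fun p => ∀ i, ¬ p ∣ α i),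
      (((Irn K (2 * d + 1)).filter (fun g => (∀ i, Sft m (p * g + α i)) ∧
      ¬ ∀ i ∈ S, GdF y δ κb (d + j) (p * (p * g + α i)))).card : ℝ) ≤
        k * (ε' * a / (200 * k) * (Fintype.card K : ℝ) ^ d *
          (V1 α m * (Fintype.card K : ℝ) ^ (d + 1) / (a * d))) := by
    intro S p hp
    rw [Finset.mem_filter] at hp
    have hpI := mem_Irn.1 hp.1
    refine fibre (εt := ε' * a / (200 * k))
      (ub := V1 α m * (Fintype.card K : ℝ) ^ (d + 1) / (a * d)) α p hp.1 hp.2 hdeg ?_ ?_ ?_ ?_ S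
    · intro c hc
      have h1 := htyp (d + j) y (by omega) hy0 (by
        push_cast
        have := ml hd00 hμθ
        have : (0 : ℝ) ≤ θ * j := by positivity
        linarith) p c hpI.1 hpI.2.2 (by
        rw [hpI.2.1]
        push_cast
        have := ml hd00 hηδ
        have : (0 : ℝ) ≤ δ * j := by positivity
        linarith) hc
      rw [hpI.2.1, Nat.add_sub_cancel] at h1
      exact h1
    · rw [← hvdef, ← hq]
      positivity
    · positivity
    · intro B hB hB2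
      exact hup d j m (by omega) hm1 hmj (hmκ.trans (ml hd00 hκa)) α p B hp.1 hB hB2 hadm
  -- the bilinear sums
  have hT1 : ∀ S : Finset (Fin k), S.Nonempty →
      |∑ p ∈ (Irn K j).filter (fun p => ∀ i, ¬ p ∣ α i), ∑ g ∈ Irn K (2 * d + 1),
            (if ∀ i ∈ S, GdF y δ κb (d + j) (p * (p * g + α i)) then
              th m U α (p * g) * ∏ i ∈ S, (mob (p * g + α i) : ℝ) else 0)| ≤
            (Fintype.card K : ℝ) ^ (2 * (d : ℝ) + 1 + j - c' * d) := by
    intro S hS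
    exact hbil d j y m (by omega) ((ml hd00 hηη).trans hj1) (hj2.trans (ml hd00 hηκ)) hyη
      (hyμ.trans (ml hd00 hμκ)) (hmκ.trans (ml hd00 hκκ')) α S U (Irn K (2 * d + 1)) hinj hdeg hS
      (fun T => (hUV1 T).1) (fun T hT => hUV2 T (Or.inl hT)) (fun g hg => by
        rw [mem_Irn] at hg
        exact mem_Mn.2 ⟨hg.1, hg.2.1⟩)
  -- the number of the primes
  have hP := pj_num (P := ((Irn K j).filter (fun p => ∀ i, ¬ p ∣ α i)).card) hq2 hη hd0 hj6 hj1 hjd
    (hg1 d (by omega)) (by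
      rw [hq]
      exact pj_ge α hα0 (by omega) hdeg)
  have hj0 : (0 : ℝ) < j := by exact_mod_cast (by omega : 0 < j)
  have key : ∀ Z : ℝ, (((Irn K j).filter (fun p => ∀ i, ¬ p ∣ α i)).card : ℝ) * (M / 2) ≤ Z →
      cv / 2 * q ^ (2 * d + 1 + j) / ((d : ℝ) ^ 2 * (m : ℝ) ^ k) ≤ Z := by
    intro Z hZ
    refine le_trans ?_ hZ
    have h1 : q ^ j / (2 * j) * (q ^ (2 * d + 1) / (3 * d) * (cv / (m : ℝ) ^ k) / 2) ≤
        (((Irn K j).filter (fun p => ∀ i, ¬ p ∣ α i)).card : ℝ) * (M / 2) := by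
      rw [hM]
      gcongr
    refine le_trans ?_ h1
    have h2 : q ^ j / (2 * (d / 8)) * (q ^ (2 * d + 1) / (3 * d) * (cv / (m : ℝ) ^ k) / 2) ≤
        q ^ j / (2 * j) * (q ^ (2 * d + 1) / (3 * d) * (cv / (m : ℝ) ^ k) / 2) := by
      gcongr
    refine le_trans ?_ h2
    have h3 : q ^ j / (2 * (d / 8)) * (q ^ (2 * d + 1) / (3 * d) * (cv / (m : ℝ) ^ k) / 2) =
        4 / 3 * (cv / 2 * q ^ (2 * d + 1 + j) / ((d : ℝ) ^ 2 * (m : ℝ) ^ k)) := by
      rw [pow_add q (2 * d + 1) j]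
      field_simp
      ring
    rw [h3]
    have h4 : 0 ≤ cv / 2 * q ^ (2 * d + 1 + j) / ((d : ℝ) ^ 2 * (m : ℝ) ^ k) := by positivity
    linarith
  rw [← hq] at hfib hT1
  refine ⟨?_, ?_⟩
  · have h1 := (est α U V hU hV hε'0 hε'1 hM0.le hU2 hV2 Finset.univ (hT1 Finset.univ
      ⟨⟨0, by omega⟩, Finset.mem_univ _⟩) (hfib Finset.univ)).1
    rw [← hq]
    exact key _ h1
  · intro S hS
    obtain ⟨h1, h2⟩ := est α U V hU hV hε'0 hε'1 hM0.le hU2 hV2 S (hT1 S hS) (hfib S)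
    refine h2.trans ?_
    have h3 := key _ h1
    -- the bilinear term
    have h4 : q ^ (2 * (d : ℝ) + 1 + j - c' * d) ≤ ε' / 8 * (Zs K α d j m).card := by
      have h5 := hg3 d (by omega)
      have h6 : (2 : ℝ) ^ (c' * (d : ℝ)) ≤ q ^ (c' * (d : ℝ)) :=
        Real.rpow_le_rpow (by norm_num) hq2 (by positivity)
      have h7 : q ^ (2 * (d : ℝ) + 1 + j - c' * d) * q ^ (c' * (d : ℝ)) = q ^ (2 * d + 1 + j) := by
        rw [← Real.rpow_add hq0, ← Real.rpow_natCast]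
        congr 1
        push_cast
        ring
      have h8 : 0 < q ^ (2 * (d : ℝ) + 1 + j - c' * d) := Real.rpow_pos_of_pos hq0 _
      have h9 : q ^ (2 * (d : ℝ) + 1 + j - c' * d) * (16 / (ε' * cv) * (d : ℝ) ^ (k + 2)) ≤
          q ^ (2 * d + 1 + j) := by
        rw [← h7]
        exact mul_le_mul_of_nonneg_left (h5.trans h6) h8.le
      have h10 : cv / 2 * q ^ (2 * d + 1 + j) / ((d : ℝ) ^ 2 * (d : ℝ) ^ k) ≤
          cv / 2 * q ^ (2 * d + 1 + j) / ((d : ℝ) ^ 2 * (m : ℝ) ^ k) := by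
        gcongr
      have h11 := h10.trans h3
      have h12 : ε' / 8 * (cv / 2 * (q ^ (2 * (d : ℝ) + 1 + j - c' * d) *
          (16 / (ε' * cv) * (d : ℝ) ^ (k + 2))) / ((d : ℝ) ^ 2 * (d : ℝ) ^ k)) =
          q ^ (2 * (d : ℝ) + 1 + j - c' * d) := by
        rw [pow_add]
        field_simp
        ring
      calc q ^ (2 * (d : ℝ) + 1 + j - c' * d) = _ := h12.symm
        _ ≤ ε' / 8 * (cv / 2 * q ^ (2 * d + 1 + j) / ((d : ℝ) ^ 2 * (d : ℝ) ^ k)) := by gcongr
        _ ≤ ε' / 8 * (Zs K α d j m).card := by gcongr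
    -- the bad fibres
    have h5 : (((Irn K j).filter (fun p => ∀ i, ¬ p ∣ α i)).card : ℝ) *
        (k * (ε' * a / (200 * k) * q ^ d * (V1 α m * q ^ (d + 1) / (a * d)))) ≤
        ε' / 8 * (Zs K α d j m).card := by
      have h6 : k * (ε' * a / (200 * k) * q ^ d * (V1 α m * q ^ (d + 1) / (a * d))) =
          ε' / 200 * (q ^ (2 * d + 1) * v / d) := by
        rw [← hvdef]
        have : q ^ (2 * d + 1) = q ^ d * q ^ (d + 1) := by
          rw [← pow_add]
          congr 1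
          omega
        rw [this]
        field_simp
      have h7 : q ^ (2 * d + 1) * v / d ≤ 3 * M := by
        rw [hM, div_le_iff₀ (by positivity)]
        have h8 : 3 * (q ^ (2 * d + 1) / Nr * v) * d = q ^ (2 * d + 1) * v * (3 * d / Nr) := by
          field_simp
        rw [h8]
        refine le_mul_of_one_le_right (by positivity) ?_
        rw [one_le_div hN0]
        exact hN3
      rw [h6]
      have h8 : (0 : ℝ) ≤ ((Irn K j).filter (fun p => ∀ i, ¬ p ∣ α i)).card := Nat.cast_nonneg _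
      calc (((Irn K j).filter (fun p => ∀ i, ¬ p ∣ α i)).card : ℝ) *
            (ε' / 200 * (q ^ (2 * d + 1) * v / d))
          ≤ (((Irn K j).filter (fun p => ∀ i, ¬ p ∣ α i)).card : ℝ) * (ε' / 200 * (3 * M)) := by
            gcongr
        _ = 3 * ε' / 100 * ((((Irn K j).filter (fun p => ∀ i, ¬ p ∣ α i)).card : ℝ) * (M / 2)) := by
            ring
        _ ≤ 3 * ε' / 100 * (Zs K α d j m).card := by gcongr
        _ ≤ ε' / 8 * (Zs K α d j m).card := by
            have h9 : (0 : ℝ) ≤ (Zs K α d j m).card := Nat.cast_nonneg _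
            refine mul_le_mul_of_nonneg_right ?_ h9
            linarith
    have h9 : (0 : ℝ) ≤ (Zs K α d j m).card := Nat.cast_nonneg _
    have h10 : ε' * (Zs K α d j m).card ≤ ε * (Zs K α d j m).card :=
      mul_le_mul_of_nonneg_right hε'ε h9
    have h11 : 0 ≤ ε' * (Zs K α d j m).card := mul_nonneg hε'0.le h9
    linarith

end Pool.Agent.H721.E2Fin
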